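import Pool.Agent.K3h26.CS.Gen

/-!
# Counting functions and the coding of bounded differences
-/

set_option autoImplicit false

open Set Topology Filter

namespace Pool.Agent.K3h26.CS

open Classical in
/-- the number of elements of `S` less than `k` -/
noncomputable def cnt (S : Set ℕ) : ℕ → ℕ
  | 0 => 0
  | (k + 1) => cnt S k + if k ∈ S then 1 else 0

/-- the counting functions have bounded difference -/
def Close (S T : Set ℕ) : Prop := ∃ m : ℕ, ∀ k, cnt S k ≤ cnt T k + m ∧ cnt T k ≤ cnt S k + m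

theorem Close.refl (S : Set ℕ) : Close S S := ⟨0, fun _ => ⟨le_rfl, le_rfl⟩⟩

theorem Close.symm {S T : Set ℕ} (h : Close S T) : Close T S := by
  obtain ⟨m, hm⟩ := h
  exact ⟨m, fun k => ⟨(hm k).2, (hm k).1⟩⟩

theorem Close.trans {S T U : Set ℕ} (h : Close S T) (h' : Close T U) : Close S U := by
  obtain ⟨m, hm⟩ := h
  obtain ⟨m', hm'⟩ := h'
  refine ⟨m + m', fun k => ?_⟩
  have h1 := hm k
  have h2 := hm' k
  omega

theorem cnt_succ (S : Set ℕ) (k : ℕ) :
    cnt S (k + 1) = cnt S k + (open Classical in if k ∈ S then 1 else 0) := rfl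

theorem cnt_succ_mem {S : Set ℕ} {k : ℕ} (h : k ∈ S) : cnt S (k + 1) = cnt S k + 1 := by
  rw [cnt_succ, if_pos h]

theorem cnt_succ_not {S : Set ℕ} {k : ℕ} (h : k ∉ S) : cnt S (k + 1) = cnt S k := by
  rw [cnt_succ, if_neg h, Nat.add_zero]

theorem cnt_range {e : ℕ → ℕ} (he : StrictMono e) (i : ℕ) : cnt (Set.range e) (e i) = i := by
  classical
  have h1 : ∀ m, (∀ i, m ≤ e i → (∀ j, j < i → e j < m) → cnt (Set.range e) m = i) := by
    intro m
    induction m with
    | zero =>
      intro i _ h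
      by_contra hc
      have hi : i ≠ 0 := fun h0 => hc (by rw [h0]; rfl)
      have := h 0 (Nat.pos_of_ne_zero hi)
      omega
    | succ m ih =>
      intro i h1 h2
      by_cases hm : m ∈ Set.range e
      · obtain ⟨j, rfl⟩ := hm
        have hji : j < i := he.lt_iff_lt.1 (by omega)
        have hij : i = j + 1 := by
          by_contra hne
          have h3 := h2 (j + 1) (by omega)
          have h4 : e j < e (j + 1) := he (Nat.lt_succ_self j)
          omega
        rw [cnt_succ_mem (S := Set.range e) ⟨j, rfl⟩, ih j le_rfl fun k hk => he hk, hij]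
      · rw [cnt_succ_not hm]
        refine ih i (by omega) fun j hj => ?_
        have := h2 j hj
        rcases Nat.lt_or_ge (e j) m with h | h
        · exact h
        · exact (hm ⟨j, by omega⟩).elim
  exact h1 (e i) i le_rfl fun j hj => he hj

/-- the union of a set `t` and of the image of `x` -/
def join (t : Set ℕ) (e : ℕ → ℕ) (x : Set ℕ) : Set ℕ := t ∪ e '' x

theorem cnt_join {t : Set ℕ} {e : ℕ → ℕ} (he : StrictMono e) (hd : ∀ i, e i ∉ t) (x : Set ℕ) (m : ℕ) :
    cnt (join t e x) m = cnt t m + cnt x (cnt (Set.range e) m) := by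
  induction m with
  | zero => rfl
  | succ m ih =>
    by_cases h : m ∈ Set.range e
    · obtain ⟨i, rfl⟩ := h
      have h1 := cnt_range he i
      rw [cnt_succ_not (hd i), cnt_succ_mem (S := Set.range e) ⟨i, rfl⟩, h1]
      rw [h1] at ih
      by_cases hx : i ∈ x
      · rw [cnt_succ_mem (S := join t e x) (Or.inr ⟨i, hx, rfl⟩), ih, cnt_succ_mem hx]
        omega
      · rw [cnt_succ_not (S := join t e x), ih, cnt_succ_not hx]
        rintro (h | ⟨j, hj, hji⟩)
        · exact hd i h
        · rw [he.injective hji] at hj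
          exact hx hj
    · rw [cnt_succ_not h]
      by_cases ht : m ∈ t
      · rw [cnt_succ_mem (S := join t e x) (Or.inl ht), cnt_succ_mem ht, ih]
        omega
      · rw [cnt_succ_not (S := join t e x), cnt_succ_not ht, ih]
        rintro (h' | ⟨j, -, hj⟩)
        · exact ht h'
        · exact h ⟨j, hj⟩

theorem close_join {t : Set ℕ} {e : ℕ → ℕ} (he : StrictMono e) (hd : ∀ i, e i ∉ t) (x y : Set ℕ) :
    Close (join t e x) (join t e y) ↔ Close x y := by
  constructor
  · rintro ⟨m, hm⟩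
    refine ⟨m, fun i => ?_⟩
    have := hm (e i)
    rw [cnt_join he hd, cnt_join he hd, cnt_range he] at this
    omega
  · rintro ⟨m, hm⟩
    refine ⟨m, fun k => ?_⟩
    have := hm (cnt (Set.range e) k)
    rw [cnt_join he hd, cnt_join he hd]
    omega

/-! ### The coding -/

/-- The set coding the sequence `a`: in the `n`-th block `[n², (n+1)²)` it consists of the `n + 1`
elements from `n² + a n` on. -/
def cod (a : Z) : Set ℕ :=
  {p | (a (Nat.sqrt p) : ℕ) ≤ p - Nat.sqrt p ^ 2 ∧ p - Nat.sqrt p ^ 2 ≤ a (Nat.sqrt p) + Nat.sqrt p}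

theorem mem_cod {a : Z} {n o : ℕ} (ho : o ≤ 2 * n) :
    n ^ 2 + o ∈ cod a ↔ (a n : ℕ) ≤ o ∧ o ≤ a n + n := by
  have hs : Nat.sqrt (n ^ 2 + o) = n := by
    rw [pow_two]
    exact Nat.sqrt_add_eq n (by omega)
  have h1 : n ^ 2 + o ∈ cod a ↔ (a (Nat.sqrt (n ^ 2 + o)) : ℕ) ≤ n ^ 2 + o - Nat.sqrt (n ^ 2 + o) ^ 2 ∧
      n ^ 2 + o - Nat.sqrt (n ^ 2 + o) ^ 2 ≤ a (Nat.sqrt (n ^ 2 + o)) + Nat.sqrt (n ^ 2 + o) := Iff.rfl
  rw [h1, hs]
  simp

/-- the number of elements below the blocks -/
def tri : ℕ → ℕ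
  | 0 => 0
  | (n + 1) => tri n + (n + 1)

theorem cnt_cod (a : Z) (n : ℕ) : cnt (cod a) (n ^ 2) = tri n ∧
    ∀ o ≤ 2 * n + 1, cnt (cod a) (n ^ 2 + o) = tri n + min (o - a n) (n + 1) := by
  have step : ∀ n, cnt (cod a) (n ^ 2) = tri n →
      ∀ o ≤ 2 * n + 1, cnt (cod a) (n ^ 2 + o) = tri n + min (o - a n) (n + 1) := by
    intro n hn o
    induction o with
    | zero =>
      intro _
      rw [Nat.add_zero, hn]
      simp
    | succ o ih =>
      intro ho
      have h1 := ih (by omega)
      rw [← Nat.add_assoc]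
      have h2 := mem_cod (a := a) (n := n) (o := o) (by omega)
      by_cases hm : n ^ 2 + o ∈ cod a
      · rw [cnt_succ_mem hm, h1]
        have := h2.1 hm
        omega
      · rw [cnt_succ_not hm, h1]
        rw [h2] at hm
        omega
  have main : ∀ n, cnt (cod a) (n ^ 2) = tri n := by
    intro n
    induction n with
    | zero => rfl
    | succ n ih =>
      have h1 := step n ih (2 * n + 1) le_rfl
      have e1 : (n + 1) ^ 2 = n ^ 2 + (2 * n + 1) := by ring
      rw [e1, h1]
      show _ = tri n + (n + 1)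
      have := (a n).2
      omega
  exact ⟨main n, step n (main n)⟩

theorem exists_block (k : ℕ) : ∃ n o, o ≤ 2 * n + 1 ∧ k = n ^ 2 + o := by
  refine ⟨Nat.sqrt k, k - Nat.sqrt k ^ 2, ?_, ?_⟩
  · have := Nat.sqrt_le_add k
    have h2 : Nat.sqrt k ^ 2 = Nat.sqrt k * Nat.sqrt k := pow_two _
    omega
  · have := Nat.sqrt_le' k
    omega

theorem close_cod (a b : Z) : Close (cod a) (cod b) ↔ Bdd a b := by
  constructor
  · rintro ⟨m, hm⟩
    refine ⟨m, fun n => ?_⟩
    have ha := (a n).2
    have hb := (b n).2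
    have h1 := hm (n ^ 2 + a n)
    have h2 := hm (n ^ 2 + b n)
    rw [(cnt_cod a n).2 _ (by omega), (cnt_cod b n).2 _ (by omega)] at h1 h2
    omega
  · rintro ⟨m, hm⟩
    refine ⟨m, fun k => ?_⟩
    obtain ⟨n, o, ho, rfl⟩ := exists_block k
    rw [(cnt_cod a n).2 _ ho, (cnt_cod b n).2 _ ho]
    have := hm n
    omega

theorem cod_infinite (a : Z) : (cod a).Infinite := by
  have h : Function.Injective fun n : ℕ => n ^ 2 + a n := by
    have : StrictMono fun n : ℕ => n ^ 2 + (a n : ℕ) := by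
      refine strictMono_nat_of_lt_succ fun n => ?_
      have h1 := (a n).2
      have e1 : (n + 1) ^ 2 = n ^ 2 + (2 * n + 1) := by ring
      omega
    exact this.injective
  refine (Set.infinite_range_of_injective h).mono ?_
  rintro _ ⟨n, rfl⟩
  have h1 := (a n).2
  exact (mem_cod (by omega)).2 ⟨le_rfl, by omega⟩

theorem isClopen_cod (p : ℕ) : IsClopen {a : Z | p ∈ cod a} := by
  have h1 : {a : Z | p ∈ cod a} = {a : Z | a (Nat.sqrt p) ∈ {v : Fin (Nat.sqrt p + 1) |
      (v : ℕ) ≤ p - Nat.sqrt p ^ 2 ∧ p - Nat.sqrt p ^ 2 ≤ v + Nat.sqrt p}} := rfl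
  rw [h1]
  exact (isClopen_discrete _).preimage (continuous_apply (Nat.sqrt p))

theorem isClopen_join {t : Set ℕ} {e : ℕ → ℕ} (he : StrictMono e) (j : ℕ) :
    IsClopen {a : Z | j ∈ join t e (cod a)} := by
  by_cases h1 : j ∈ t
  · have : {a : Z | j ∈ join t e (cod a)} = univ := by
      ext a
      exact ⟨fun _ => trivial, fun _ => Or.inl h1⟩
    rw [this]
    exact isClopen_univ
  · by_cases h2 : ∃ i, e i = j
    · obtain ⟨i, rfl⟩ := h2
      have : {a : Z | e i ∈ join t e (cod a)} = {a : Z | i ∈ cod a} := by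
        ext a
        constructor
        · rintro (h | ⟨i', hi', hi⟩)
          · exact (h1 h).elim
          · rw [he.injective hi] at hi'
            exact hi'
        · intro h
          exact Or.inr ⟨i, h, rfl⟩
      rw [this]
      exact isClopen_cod i
    · have : {a : Z | j ∈ join t e (cod a)} = ∅ := by
        ext a
        simp only [Set.mem_ofPred_eq, mem_empty_iff_false, iff_false]
        rintro (h | ⟨i', -, hi⟩)
        · exact h1 h
        · exact h2 ⟨i', hi⟩
      rw [this]
      exact isClopen_empty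

end Pool.Agent.K3h26.CS
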