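import Mathlib

/-!
# The Carlson-Simpson space of equivalence relations with infinitely many classes: definitions
-/

set_option autoImplicit false

open Set

namespace Pool.Agent.K3h26.CS

/-! ### The space `𝓔_∞` -/

/-- `𝓔_∞`: the equivalence relations on `ℕ` with infinitely many classes. -/
def EInf : Type := {A : Setoid ℕ // A.classes.Infinite}

/-- The set of the least elements of the classes of `A`. -/
def mins (A : Setoid ℕ) : Set ℕ := {m | ∀ k, A.r k m → m ≤ k}

/-- `μ_n(A)`: the increasing enumeration (from `n = 0`) of the least elements of the `A`-classes. -/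
noncomputable def mu (n : ℕ) (A : EInf) : ℕ := Nat.nth (fun m => m ∈ mins A.1) n

/-- The finite equivalence relations on initial segments `{0, …, N - 1}` of `ℕ`. -/
def FinEq : Type := Σ N : ℕ, Setoid (Fin N)

/-- `r_n(A)`: the restriction of `A` to `{0, …, μ_n(A) - 1}`. -/
noncomputable def restr (n : ℕ) (A : EInf) : FinEq :=
  ⟨mu n A, Setoid.comap (fun i : Fin (mu n A) => (i : ℕ)) A.1⟩

/-- `A ≤ B`: every `A`-class is a union of `B`-classes (`B` is finer). -/
def Coarser (A B : EInf) : Prop := ∀ x y : ℕ, B.1.r x y → A.1.r x y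

/-- `[s, B] = {A ≤ B : s = r_n(A) for some n}`. -/
def basic (s : FinEq) (B : EInf) : Set EInf := {A | Coarser A B ∧ ∃ n, s = restr n A}

open Classical in
/-- `x_A`, with `x_A(n, m) = 1` if and only if `m A μ_n(A)`. -/
noncomputable def code (A : EInf) : ℕ × ℕ → Bool := fun p => decide (A.1.r p.2 (mu p.1 A))

/-- The topology of `𝓔_∞` is induced by `A ↦ x_A`. -/
noncomputable instance : TopologicalSpace EInf :=
  TopologicalSpace.induced code (inferInstance : TopologicalSpace (ℕ × ℕ → Bool))

/-- The `σ`-ideal `I(𝓔_∞)`. -/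
def Null (S : Set EInf) : Prop :=
  ∀ (s : FinEq) (A : EInf), (basic s A).Nonempty → ∃ B ∈ basic s A, basic s B ∩ S = ∅

/-! ### Borel sets, Borel reducibility -/

universe u v

/-- Borel subsets of a topological space -/
def IsBorel {X : Type u} [TopologicalSpace X] (S : Set X) : Prop := @MeasurableSet X (borel X) S

/-- Borel maps between topological spaces -/
def IsBorelMap {X : Type u} {Y : Type v} [TopologicalSpace X] [TopologicalSpace Y] (f : X → Y) :
    Prop := ∀ U : Set Y, IsBorel U → IsBorel (f ⁻¹' U)

/-- `E ≤_B F` -/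
def BorelReducible {X : Type u} {Y : Type v} [TopologicalSpace X] [TopologicalSpace Y]
    (E : X → X → Prop) (F : Y → Y → Prop) : Prop :=
  ∃ f : X → Y, IsBorelMap f ∧ ∀ x x', E x x' ↔ F (f x) (f x')

/-- smooth: Borel reducible to equality on `2^ℕ` -/
def Smooth {X : Type u} [TopologicalSpace X] (E : X → X → Prop) : Prop :=
  BorelReducible E (fun a b : ℕ → Bool => a = b)

/-- hypersmooth: the union of an increasing sequence of smooth equivalence relations -/
def Hypersmooth {X : Type u} [TopologicalSpace X] (E : X → X → Prop) : Prop :=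
  ∃ F : ℕ → X → X → Prop, (∀ n, Equivalence (F n)) ∧ (∀ n, Smooth (F n)) ∧
    (∀ n x y, F n x y → F (n + 1) x y) ∧ ∀ x y, E x y ↔ ∃ n, F n x y

/-- The restriction of a relation to a set. -/
def Restrict {X : Type u} (E : X → X → Prop) (S : Set X) : S → S → Prop := fun x y => E x y

/-- `I(𝓔_∞)` canonizes `E` to `F`: every Borel set that is not in the ideal contains a Borel set that
is not in the ideal on which `E` is Borel reducible to `F`. -/
def Canonizes {Y : Type u} [TopologicalSpace Y] (E : EInf → EInf → Prop) (F : Y → Y → Prop) : Prop :=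
  ∀ S : Set EInf, IsBorel S → ¬ Null S →
    ∃ T ⊆ S, IsBorel T ∧ ¬ Null T ∧ BorelReducible (Restrict E T) F

end Pool.Agent.K3h26.CS
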