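import Mathlib

/-!
# Bounded differences are not a countable union of smooth equivalence relations, generically

On the product `Z` of the finite sets `{0, …, n}` let `Bdd a b` mean that the differences of the
coordinates are bounded.  There are no Borel maps `H n` from `Z` to the Cantor space such that, on a
comeagre set, `Bdd a b` holds if and only if `H n a = H n b` for some `n`.
-/

set_option autoImplicit false

open Set Filter Topology

namespace Pool.Agent.K3h26.CS

section Pi

variable {X : ℕ → Type} [∀ n, TopologicalSpace (X n)] [∀ n, DiscreteTopology (X n)]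

theorem exists_cyl {U : Set (∀ n, X n)} (hU : IsOpen U) {x : ∀ n, X n} (hx : x ∈ U) :
    ∃ l : ℕ, ∀ y : ∀ n, X n, (∀ k < l, y k = x k) → y ∈ U := by
  obtain ⟨I, u, h1, h2⟩ := isOpen_pi_iff.1 hU x hx
  refine ⟨I.sup id + 1, fun y hy => h2 ?_⟩
  intro i hi
  have : i ≤ I.sup id := Finset.le_sup (f := id) hi
  rw [hy i (by omega)]
  exact (h1 i hi).2

theorem isOpen_coord (X : ℕ → Type) [∀ n, TopologicalSpace (X n)] [∀ n, DiscreteTopology (X n)] (i : ℕ)
    (s : Set (X i)) : IsOpen {a : ∀ n, X n | a i ∈ s} :=
  (isOpen_discrete s).preimage (continuous_apply i)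

theorem isOpen_cyl (x : ∀ n, X n) (l : ℕ) : IsOpen {y : ∀ n, X n | ∀ k < l, y k = x k} := by
  have : {y : ∀ n, X n | ∀ k < l, y k = x k} = ⋂ k ∈ Finset.range l, {y | y k = x k} := by
    ext y
    simp
  rw [this]
  refine isOpen_biInter_finset fun k _ => ?_
  exact (isOpen_discrete {x k}).preimage (continuous_apply k)

/-- exchange of two values of one coordinate -/
noncomputable def swapAt [∀ n, DecidableEq (X n)] (i : ℕ) (x y : X i) : (∀ n, X n) ≃ₜ (∀ n, X n) where
  toFun a := Function.update a i (Equiv.swap x y (a i))
  invFun a := Function.update a i (Equiv.swap x y (a i))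
  left_inv a := by
    simp
  right_inv a := by
    simp
  continuous_toFun := by
    exact continuous_id.update i (continuous_of_discreteTopology.comp (continuous_apply i))
  continuous_invFun := by
    exact continuous_id.update i (continuous_of_discreteTopology.comp (continuous_apply i))

theorem swapAt_apply [∀ n, DecidableEq (X n)] (i : ℕ) (x y : X i) (a : ∀ n, X n) :
    swapAt i x y a = Function.update a i (Equiv.swap x y (a i)) := rfl

theorem eventually_homeo {Y : Type} [TopologicalSpace Y] (e : Y ≃ₜ Y) {p : Y → Prop}
    (h : ∀ᶠ y in residual Y, p y) : ∀ᶠ y in residual Y, p (e y) :=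
  (tendsto_residual_of_isOpenMap e.continuous e.isOpenMap).eventually h

end Pi

theorem exists_of_eventually {Y : Type} [TopologicalSpace Y] [BaireSpace Y] {W : Set Y}
    (hW : IsOpen W) (hne : W.Nonempty) {p : Y → Prop} (h : ∀ᶠ y in residual Y, p y) :
    ∃ y ∈ W, p y := by
  have h1 : Dense {y | p y} := dense_of_mem_residual h
  obtain ⟨y, hy1, hy2⟩ := h1.inter_open_nonempty W hW hne
  exact ⟨y, hy1, hy2⟩

theorem exists_box {Y : Type} [TopologicalSpace Y] [BaireSpace Y] [Nonempty Y] [MeasurableSpace Y]
    [BorelSpace Y] (S : ℕ → Set Y) (hS : ∀ n, MeasurableSet (S n))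
    (h : ∀ᶠ y in residual Y, ∃ n, y ∈ S n) :
    ∃ n, ∃ W : Set Y, IsOpen W ∧ W.Nonempty ∧ ∀ᶠ y in residual Y, y ∈ W → y ∈ S n := by
  have h1 : ∀ n, ∃ u : Set Y, IsOpen u ∧ ∀ᶠ y in residual Y, (y ∈ S n ↔ y ∈ u) := by
    intro n
    obtain ⟨u, hu1, hu2⟩ := (hS n).baireMeasurableSet.residualEq_isOpen
    exact ⟨u, hu1, Filter.eventuallyEq_set.1 hu2⟩
  choose u hu1 hu2 using h1
  by_contra hcon
  push Not at hcon
  have h3 : ∀ n, u n = ∅ := by
    intro n
    by_contra hne
    apply hcon n (u n) (hu1 n) (nonempty_iff_ne_empty.2 hne)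
    filter_upwards [hu2 n] with y hy hy'
    exact hy'.2 (hy.2 hy'.1)
  have h4 : ∀ᶠ y in residual Y, ∀ n, y ∉ S n := by
    rw [eventually_countable_forall]
    intro n
    filter_upwards [hu2 n] with y hy hy'
    have := hy.1 hy'
    rw [h3 n] at this
    exact this
  obtain ⟨y, -, hy1, n, hy2⟩ := exists_of_eventually isOpen_univ univ_nonempty (h4.and h)
  exact hy1 n hy2

/-- the product of the sets `{0, …, n}` -/
abbrev Z : Type := (n : ℕ) → Fin (n + 1)

/-- auxiliary space -/
abbrev Om : Type := (n : ℕ) → Fin (n + 1) × Bool

/-- bounded differences -/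
def Bdd (a b : Z) : Prop := ∃ m : ℕ, ∀ n, (a n : ℕ) ≤ b n + m ∧ (b n : ℕ) ≤ a n + m

/-- increase by one where possible and indicated -/
def incr {n : ℕ} (v : Fin (n + 1) × Bool) : Fin (n + 1) :=
  if h : v.2 = true ∧ (v.1 : ℕ) + 1 < n + 1 then ⟨v.1 + 1, h.2⟩ else v.1

theorem incr_le {n : ℕ} (v : Fin (n + 1) × Bool) : (v.1 : ℕ) ≤ incr v + 1 ∧ (incr v : ℕ) ≤ v.1 + 1 := by
  unfold incr
  split_ifs with h
  · exact ⟨by simp; omega, by simp⟩
  · omega

/-- first projection -/
def P1 (w : Om) : Z := Pi.map (fun _ v => v.1) w

/-- second projection -/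
def P2 (w : Om) : Z := Pi.map (fun _ v => incr v) w

theorem P1_continuous : Continuous P1 :=
  Continuous.piMap fun _ => continuous_of_discreteTopology

theorem P2_continuous : Continuous P2 :=
  Continuous.piMap fun _ => continuous_of_discreteTopology

theorem P1_isOpenMap : IsOpenMap P1 := by
  refine IsOpenMap.piMap (fun n s _ => isOpen_discrete _) (Eventually.of_forall fun n v => ?_)
  exact ⟨(v, false), rfl⟩

theorem P2_isOpenMap : IsOpenMap P2 := by
  refine IsOpenMap.piMap (fun n s _ => isOpen_discrete _) (Eventually.of_forall fun n v => ?_)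
  exact ⟨(v, false), by simp [incr]⟩

theorem P12_bdd (w : Om) : Bdd (P1 w) (P2 w) := ⟨1, fun n => incr_le (w n)⟩

theorem not_bdd (a : Z) : ∀ᶠ b in residual Z, ¬ Bdd a b := by
  have h : ∀ m : ℕ, ∀ᶠ b in residual Z, ¬ ∀ n, (a n : ℕ) ≤ b n + m ∧ (b n : ℕ) ≤ a n + m := by
    intro m
    set O : Set Z := {b | ¬ ∀ n, (a n : ℕ) ≤ b n + m ∧ (b n : ℕ) ≤ a n + m} with hO
    have h1 : IsOpen O := by
      have : O = ⋃ n, {b : Z | ¬ ((a n : ℕ) ≤ b n + m ∧ (b n : ℕ) ≤ a n + m)} := by
        ext b
        simp only [hO, Set.mem_ofPred_eq, mem_iUnion, not_forall]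
      rw [this]
      refine isOpen_iUnion fun n => ?_
      exact isOpen_coord (fun n => Fin (n + 1)) n
        {v : Fin (n + 1) | ¬ ((a n : ℕ) ≤ v + m ∧ (v : ℕ) ≤ a n + m)}
    have h2 : Dense O := by
      intro x
      rw [mem_closure_iff]
      intro U hU hx
      obtain ⟨l, hl⟩ := exists_cyl hU hx
      set n := l + 2 * m + 2 with hn
      obtain ⟨v, hv⟩ : ∃ v : Fin (n + 1), ¬ ((a n : ℕ) ≤ v + m ∧ (v : ℕ) ≤ a n + m) := by
        by_cases hc : (a n : ℕ) ≤ m
        · exact ⟨⟨n, by omega⟩, fun h => by have := h.2; simp only at this; omega⟩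
        · exact ⟨⟨0, by omega⟩, fun h => by have := h.1; simp only at this; omega⟩
      refine ⟨Function.update x n v, hl _ fun k hk => ?_, fun hall => ?_⟩
      · rw [Function.update_of_ne (by omega)]
      · have := hall n
        rw [Function.update_self] at this
        exact hv this
    exact residual_of_dense_open h1 h2
  have h' := (eventually_countable_forall.2 h)
  filter_upwards [h'] with b hb hbd
  obtain ⟨m, hm⟩ := hbd
  exact hb m hm

section Core

variable (a₀ : Z) (l : ℕ) (V : Set Z)

/-- generic invariance under unit steps in single coordinates beyond `l` -/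
def Inv : Prop := ∀ (i : ℕ) (v v' : Fin (i + 1)), l ≤ i → (v' : ℕ) = v + 1 →
  ∀ᶠ a in residual Z, (∀ k < l, a k = a₀ k) → a i = v → (a ∈ V ↔ Function.update a i v' ∈ V)

/-- `V` is comeagre in a cylinder -/
def Q (L : ℕ) (s : Z) : Prop := ∀ᶠ a in residual Z, (∀ k < L, a k = s k) → a ∈ V

variable {a₀ l V}

theorem Q_congr {L : ℕ} {s t : Z} (h : ∀ k < L, s k = t k) : Q V L s ↔ Q V L t := by
  unfold Q
  constructor
  · intro hq
    filter_upwards [hq] with a ha ha'
    exact ha fun k hk => (ha' k hk).trans (h k hk).symm
  · intro hq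
    filter_upwards [hq] with a ha ha'
    exact ha fun k hk => (ha' k hk).trans (h k hk)

theorem Q_step (h : Inv a₀ l V) {L : ℕ} (hL : l ≤ L) {s : Z} (hs : ∀ k < l, s k = a₀ k) {i : ℕ}
    (hi : l ≤ i) {v v' : Fin (i + 1)} (hv : (v' : ℕ) = v + 1) :
    Q V L (Function.update s i v) ↔ Q V L (Function.update s i v') := by
  by_cases hiL : i < L
  · have hinv := h i v v' hi hv
    have hne : v ≠ v' := by
      rintro rfl
      omega
    constructor
    · intro hq
      have h1 := eventually_homeo (swapAt i v v') (hq.and hinv)
      filter_upwards [h1] with a ha ha'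
      rw [swapAt_apply] at ha
      have hai : a i = v' := by
        have := ha' i hiL
        rwa [Function.update_self] at this
      rw [hai, Equiv.swap_apply_right] at ha
      have h2 : Function.update a i v ∈ V := by
        apply ha.1
        intro k hk
        by_cases hki : k = i
        · subst hki
          rw [Function.update_self, Function.update_self]
        · rw [Function.update_of_ne hki, Function.update_of_ne hki]
          have := ha' k hk
          rwa [Function.update_of_ne hki] at this
      have h3 := (ha.2 (fun k hk => by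
        rw [Function.update_of_ne (by omega)]
        have := ha' k (by omega)
        rw [Function.update_of_ne (by omega)] at this
        rw [this, hs k hk]) (by rw [Function.update_self])).1 h2
      rw [Function.update_idem, ← hai, Function.update_eq_self] at h3
      exact h3
    · intro hq
      have h1 := eventually_homeo (swapAt i v v') hq
      filter_upwards [h1, hinv] with a ha hb ha'
      rw [swapAt_apply] at ha
      have hai : a i = v := by
        have := ha' i hiL
        rwa [Function.update_self] at this
      rw [hai, Equiv.swap_apply_left] at ha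
      have h2 : Function.update a i v' ∈ V := by
        apply ha
        intro k hk
        by_cases hki : k = i
        · subst hki
          rw [Function.update_self, Function.update_self]
        · rw [Function.update_of_ne hki, Function.update_of_ne hki]
          have := ha' k hk
          rwa [Function.update_of_ne hki] at this
      exact (hb (fun k hk => by
        have := ha' k (by omega)
        rw [Function.update_of_ne (by omega)] at this
        rw [this, hs k hk]) hai).2 h2
  · refine Q_congr fun k hk => ?_
    rw [Function.update_of_ne (by omega), Function.update_of_ne (by omega)]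

theorem Q_update (h : Inv a₀ l V) {L : ℕ} (hL : l ≤ L) {s : Z} (hs : ∀ k < l, s k = a₀ k) {i : ℕ}
    (hi : l ≤ i) (v : Fin (i + 1)) :
    Q V L s ↔ Q V L (Function.update s i v) := by
  have key : ∀ (c : ℕ) (hc : c < i + 1), Q V L (Function.update s i ⟨0, by omega⟩) ↔
      Q V L (Function.update s i ⟨c, hc⟩) := by
    intro c
    induction c with
    | zero => intro hc; exact Iff.rfl
    | succ c ih =>
      intro hc
      rw [ih (by omega)]
      exact Q_step h hL hs hi rfl
  have h1 := key (s i) (s i).2
  have h2 := key v v.2
  rw [Fin.eta] at h1 h2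
  rw [Function.update_eq_self] at h1
  exact h1.symm.trans h2

theorem Q_all (h : Inv a₀ l V) {L : ℕ} (hL : l ≤ L) {s t : Z} (hs : ∀ k < l, s k = a₀ k)
    (ht : ∀ k < l, t k = a₀ k) : Q V L s ↔ Q V L t := by
  have key : ∀ j, Q V L s ↔ Q V L (fun k => if k < j then t k else s k) := by
    intro j
    induction j with
    | zero => simp
    | succ j ih =>
      rw [ih]
      have e : (fun k => if k < j + 1 then t k else s k) =
          Function.update (fun k => if k < j then t k else s k) j (t j) := by
        funext k
        by_cases hk : k = j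
        · subst hk
          rw [Function.update_self, if_pos (by omega)]
        · rw [Function.update_of_ne hk]
          by_cases hk2 : k < j
          · rw [if_pos (by omega), if_pos hk2]
          · rw [if_neg (by omega), if_neg hk2]
      rw [e]
      by_cases hj : l ≤ j
      · refine Q_update h hL (fun k hk => ?_) hj _
        rw [if_pos (by omega)]
        exact ht k hk
      · rw [← e]
        refine Q_congr fun k _ => ?_
        by_cases hk2 : k < j
        · rw [if_pos hk2, if_pos (by omega)]
        · by_cases hk3 : k < j + 1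
          · rw [if_neg hk2, if_pos hk3, hs k (by omega), ht k (by omega)]
          · rw [if_neg hk2, if_neg hk3]
  rw [key L]
  exact Q_congr fun k hk => by rw [if_pos hk]

theorem zero_one (h : Inv a₀ l V) (hV : @MeasurableSet Z (borel Z) V) :
    (∀ᶠ a in residual Z, (∀ k < l, a k = a₀ k) → a ∈ V) ∨
      (∀ᶠ a in residual Z, (∀ k < l, a k = a₀ k) → a ∉ V) := by
  borelize Z
  obtain ⟨u, hu1, hu2⟩ := hV.baireMeasurableSet.residualEq_isOpen
  have hu3 : ∀ᶠ a in residual Z, (a ∈ V ↔ a ∈ u) := Filter.eventuallyEq_set.1 hu2
  by_cases hne : ∃ x ∈ u, ∀ k < l, x k = a₀ k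
  · left
    obtain ⟨x, hx, hxa⟩ := hne
    obtain ⟨L', hL'⟩ := exists_cyl hu1 hx
    set L := max L' l with hL
    have hQ : Q V L x := by
      filter_upwards [hu3] with a ha ha'
      exact ha.2 (hL' a fun k hk => ha' k (lt_of_lt_of_le hk (le_max_left _ _)))
    have hall : ∀ τ : (k : Fin L) → Fin (k + 1), ∀ᶠ a in residual Z, (∀ k < l, a k = a₀ k) →
        (∀ k : Fin L, a k = τ k) → a ∈ V := by
      intro τ
      set t : Z := fun k => if hk : k < L then τ ⟨k, hk⟩ else 0 with htd
      by_cases ht : ∀ k < l, t k = a₀ k
      · have h1 := (Q_all h (le_max_right L' l) hxa ht).1 hQ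
        filter_upwards [h1] with a ha _ ha'
        refine ha fun k hk => ?_
        rw [htd]
        simp only
        rw [dif_pos hk]
        exact ha' ⟨k, hk⟩
      · refine Eventually.of_forall fun a ha ha' => (ht fun k hk => ?_).elim
        have hkL : k < L := lt_of_lt_of_le hk (le_max_right _ _)
        rw [htd]
        simp only
        rw [dif_pos hkL, ← ha k hk]
        exact (ha' ⟨k, hkL⟩).symm
    filter_upwards [eventually_all.2 hall] with a ha ha'
    exact ha (fun k => a k) ha' fun k => rfl
  · right
    push Not at hne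
    filter_upwards [hu3] with a ha ha' hav
    obtain ⟨k, hk1, hk2⟩ := hne a (ha.1 hav)
    exact hk2 (ha' k hk1)

end Core

theorem no_generic (D : Set Z) (hD : D ∈ residual Z) (H : ℕ → Z → (ℕ → Bool))
    (hH : ∀ n, @Measurable Z (ℕ → Bool) (borel Z) _ (H n))
    (h : ∀ a ∈ D, ∀ b ∈ D, (Bdd a b ↔ ∃ n, H n a = H n b)) : False := by
  borelize Z
  borelize Om
  have hD1 : ∀ᶠ w in residual Om, P1 w ∈ D :=
    (tendsto_residual_of_isOpenMap P1_continuous P1_isOpenMap).eventually hD
  have hD2 : ∀ᶠ w in residual Om, P2 w ∈ D :=
    (tendsto_residual_of_isOpenMap P2_continuous P2_isOpenMap).eventually hD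
  obtain ⟨n, W, hW1, hW2, hW3⟩ := exists_box (fun n => {w : Om | H n (P1 w) = H n (P2 w)})
    (fun n => measurableSet_eq_fun ((hH n).comp P1_continuous.measurable)
      ((hH n).comp P2_continuous.measurable)) (by
      filter_upwards [hD1, hD2] with w h1 h2
      exact (h _ h1 _ h2).1 (P12_bdd w))
  obtain ⟨w₀, hw₀⟩ := hW2
  obtain ⟨l, hl⟩ := exists_cyl hW1 hw₀
  set a₀ : Z := P1 w₀ with ha₀
  -- generic invariance
  have hinv : ∀ (i : ℕ) (v v' : Fin (i + 1)), l ≤ i → (v' : ℕ) = v + 1 →
      ∀ᶠ a in residual Z, (∀ k < l, a k = a₀ k) → a i = v → H n a = H n (Function.update a i v') := by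
    intro i v v' hi hv
    set B : Set Z := {a | (∀ k < l, a k = a₀ k) ∧ a i = v ∧ H n a ≠ H n (Function.update a i v')}
      with hB
    have hBm : MeasurableSet B := by
      have h1 : MeasurableSet {a : Z | ∀ k < l, a k = a₀ k} := (isOpen_cyl a₀ l).measurableSet
      have h2 : MeasurableSet {a : Z | a i = v} :=
        (isOpen_coord (fun n => Fin (n + 1)) i {v}).measurableSet
      have hc : Continuous fun a : Z => Function.update a i v' :=
        continuous_id.update i continuous_const
      have h3 : MeasurableSet {a : Z | H n a = H n (Function.update a i v')} :=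
        measurableSet_eq_fun (hH n) ((hH n).comp hc.measurable)
      exact h1.inter (h2.inter h3.compl)
    obtain ⟨u, hu1, hu2⟩ := hBm.baireMeasurableSet.residualEq_isOpen
    have hu3 : ∀ᶠ a in residual Z, (a ∈ B ↔ a ∈ u) := Filter.eventuallyEq_set.1 hu2
    by_cases hne : u.Nonempty
    · exfalso
      obtain ⟨x, hxu, hx⟩ := exists_of_eventually hu1 hne hu3
      have hxB := hx.2 hxu
      set V' : Set Om := {w | P1 w ∈ u} ∩ {w | ∀ k < l, w k = w₀ k} ∩ {w | w i = (v, true)} with hV'
      have hV'o : IsOpen V' := ((hu1.preimage P1_continuous).inter (isOpen_cyl w₀ l)).inter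
        (isOpen_coord (fun n => Fin (n + 1) × Bool) i {(v, true)})
      have hV'n : V'.Nonempty := by
        refine ⟨fun k => if k < l then w₀ k else (x k, if k = i then true else false),
          ⟨?_, fun k hk => ?_⟩, ?_⟩
        · have : P1 (fun k => if k < l then w₀ k else (x k, if k = i then true else false)) = x := by
            funext k
            show ((if k < l then w₀ k else (x k, if k = i then true else false)) :
              Fin (k + 1) × Bool).1 = x k
            by_cases hk : k < l
            · rw [if_pos hk, hxB.1 k hk]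
              rfl
            · rw [if_neg hk]
          show P1 _ ∈ u
          rw [this]
          exact hxu
        · simp only
          rw [if_pos hk]
        · show (if i < l then w₀ i else (x i, if i = i then true else false)) = (v, true)
          rw [if_neg (by omega), if_pos rfl, hxB.2.1]
      have e1 : ∀ᶠ w in residual Om, (P1 w ∈ B ↔ P1 w ∈ u) :=
        (tendsto_residual_of_isOpenMap P1_continuous P1_isOpenMap).eventually hu3
      have e2 := eventually_homeo
        (swapAt (X := fun n => Fin (n + 1) × Bool) i (v, true) (v', false)) hW3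
      obtain ⟨w, hwV, ⟨hw1, hw2⟩, hw3⟩ := exists_of_eventually hV'o hV'n ((e1.and e2).and hW3)
      obtain ⟨⟨hwu, hwl⟩, hwi⟩ := hwV
      have hwi' : w i = (v, true) := hwi
      have hwB := hw1.2 hwu
      apply hwB.2.2
      rw [swapAt_apply, hwi', Equiv.swap_apply_left] at hw2
      have h5 : H n (P1 w) = H n (P2 w) := hw3 (hl w hwl)
      have h6 : H n (P1 (Function.update w i (v', false))) =
          H n (P2 (Function.update w i (v', false))) := by
        apply hw2
        apply hl
        intro k hk
        rw [Function.update_of_ne (by omega)]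
        exact hwl k hk
      have h7 : P1 (Function.update w i (v', false)) = Function.update (P1 w) i v' := by
        funext k
        by_cases hk : k = i
        · subst hk
          rw [Function.update_self]
          show (Function.update w k (v', false) k).1 = v'
          rw [Function.update_self]
        · rw [Function.update_of_ne hk]
          show (Function.update w i (v', false) k).1 = (w k).1
          rw [Function.update_of_ne hk]
      have h8 : P2 (Function.update w i (v', false)) = P2 w := by
        funext k
        by_cases hk : k = i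
        · subst hk
          show incr (Function.update w k (v', false) k) = incr (w k)
          rw [Function.update_self, hwi']
          unfold incr
          rw [dif_neg (by simp), dif_pos ⟨rfl, by have := v'.2; simp only; omega⟩]
          exact Fin.ext hv
        · show incr (Function.update w i (v', false) k) = incr (w k)
          rw [Function.update_of_ne hk]
      rw [h7, h8] at h6
      rw [h5, h6]
    · filter_upwards [hu3] with a ha ha1 ha2
      by_contra hc
      exact hne ⟨a, ha.1 ⟨ha1, ha2, hc⟩⟩
  -- the bits
  have hbit : ∀ k : ℕ, ∃ c : Bool, ∀ᶠ a in residual Z, (∀ j < l, a j = a₀ j) → H n a k = c := by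
    intro k
    have hV : MeasurableSet {a : Z | H n a k = true} :=
      measurableSet_eq_fun ((measurable_pi_apply k).comp (hH n)) measurable_const
    have hI : Inv a₀ l {a : Z | H n a k = true} := by
      intro i v v' hi hv
      filter_upwards [hinv i v v' hi hv] with a ha h1 h2
      have := ha h1 h2
      show H n a k = true ↔ H n (Function.update a i v') k = true
      rw [this]
    rcases zero_one hI hV with h1 | h1
    · exact ⟨true, h1⟩
    · refine ⟨false, ?_⟩
      filter_upwards [h1] with a ha ha'
      have := ha ha'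
      simpa using this
  choose c hc using hbit
  have hconst : ∀ᶠ a in residual Z, (∀ j < l, a j = a₀ j) → H n a = c := by
    filter_upwards [eventually_countable_forall.2 hc] with a ha ha'
    funext k
    exact ha k ha'
  have hDe : ∀ᶠ a in residual Z, a ∈ D := hD
  have hne : {a : Z | ∀ k < l, a k = a₀ k}.Nonempty := ⟨a₀, fun _ _ => rfl⟩
  obtain ⟨a, haW, ha1, ha2⟩ := exists_of_eventually (isOpen_cyl a₀ l) hne (hDe.and hconst)
  obtain ⟨b, hbW, ⟨hb1, hb2⟩, hb3⟩ := exists_of_eventually (isOpen_cyl a₀ l) hne
    ((hDe.and hconst).and (not_bdd a))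
  apply hb3
  rw [h a ha1 b hb1]
  exact ⟨n, (ha2 haW).trans (hb2 hbW).symm⟩

end Pool.Agent.K3h26.CS
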