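import Pool.Agent.K3h26.CS.Ram
import Pool.Agent.K3h26.CS.Cnt

/-!
# The relation is not reducible to a hypersmooth relation on any positive Borel set
-/

set_option autoImplicit false

open Set Topology Filter MeasureTheory

namespace Pool.Agent.K3h26.CS

open Pool.Agent.H38R3.Ell

universe u

/-- The numbers of classes of `A` and of `B` with least element below `k` differ by a bounded amount. -/
def EE (A B : EInf) : Prop := Close (mins A.1) (mins B.1)

theorem EE_equivalence : Equivalence EE :=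
  ⟨fun _ => Close.refl _, fun h => h.symm, fun h h' => h.trans h'⟩

theorem continuous_cnt (k : ℕ) : Continuous fun A : EInf => cnt (mins A.1) k := by
  classical
  induction k with
  | zero => exact continuous_const
  | succ k ih =>
    have h1 : (fun A : EInf => cnt (mins A.1) (k + 1)) =
        fun A : EInf => cnt (mins A.1) k + if k ∈ mins A.1 then 1 else 0 := by
      funext A
      by_cases h : k ∈ mins A.1
      · rw [cnt_succ_mem h, if_pos h]
      · rw [cnt_succ_not h, if_neg h, Nat.add_zero]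
    rw [h1]
    refine ih.add ?_
    have h2 := isClopen_mins k
    refine IsLocallyConstant.continuous ?_
    rw [IsLocallyConstant.iff_exists_open]
    intro A
    by_cases h : k ∈ mins A.1
    · refine ⟨_, h2.isOpen, h, fun B hB => ?_⟩
      have hB' : k ∈ mins B.1 := hB
      rw [if_pos hB', if_pos h]
    · refine ⟨_, h2.compl.isOpen, h, fun B hB => ?_⟩
      have hB' : k ∉ mins B.1 := hB
      rw [if_neg hB', if_neg h]

theorem EE_analytic : AnalyticSet {p : EInf × EInf | EE p.1 p.2} := by
  have h1 : {p : EInf × EInf | EE p.1 p.2} = ⋃ m : ℕ, ⋂ k : ℕ,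
      {p : EInf × EInf | cnt (mins p.1.1) k ≤ cnt (mins p.2.1) k + m ∧
        cnt (mins p.2.1) k ≤ cnt (mins p.1.1) k + m} := by
    ext p
    simp only [EE, Close, Set.mem_ofPred_eq, mem_iUnion, mem_iInter]
  rw [h1]
  refine AnalyticSet.iUnion fun m => IsClosed.analyticSet (isClosed_iInter fun k => ?_)
  have c1 : Continuous fun p : EInf × EInf => (cnt (mins p.1.1) k, cnt (mins p.2.1) k) :=
    ((continuous_cnt k).comp continuous_fst).prodMk ((continuous_cnt k).comp continuous_snd)
  exact (isClosed_discrete {q : ℕ × ℕ | q.1 ≤ q.2 + m ∧ q.2 ≤ q.1 + m}).preimage c1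

theorem isBorelMap_iff {X Y : Type*} [TopologicalSpace X] [TopologicalSpace Y] (f : X → Y) :
    IsBorelMap f ↔ @Measurable X Y (borel X) (borel Y) f := by
  constructor
  · intro h U hU
    exact h U hU
  · intro h U hU
    exact h hU

/-- on no positive Borel set the relation is a countable union of smooth equivalence relations -/
theorem not_sigma_smooth {S : Set EInf} (hS : IsBorel S) (hN : ¬ Null S)
    (H : ℕ → S → (ℕ → Bool)) (hH : ∀ n, IsBorelMap (H n))
    (h : ∀ x y : S, EE x.1 y.1 ↔ ∃ n, H n x = H n y) : False := by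
  have hSa : AnalyticSet S := by
    borelize EInf
    exact MeasurableSet.analyticSet hS
  obtain ⟨t, Y, hY, hall⟩ := ramsey hSa hN
  have hne : S.Nonempty := by
    obtain ⟨z, hz⟩ := Nb_nonempty (t := t) hY
    obtain ⟨D, hD, -⟩ := hall z hz
    exact ⟨D, hD⟩
  rw [AnalyticSet] at hSa
  obtain ⟨φ, hφ, hφS⟩ : ∃ φ : (ℕ → ℕ) → EInf, Continuous φ ∧ Set.range φ = S := by
    rcases hSa with h0 | h0
    · rw [h0] at hne
      exact (Set.not_nonempty_empty hne).elim
    · exact h0
  -- the enumeration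
  have hYi : (above t Y).Infinite := above_infinite hY
  set e : ℕ → ℕ := Nat.nth (fun n => n ∈ above t Y) with he
  have hes : StrictMono e := Nat.nth_strictMono hYi
  have hem : ∀ i, e i ∈ above t Y := fun i => Nat.nth_mem_of_infinite hYi i
  have hed : ∀ i, e i ∉ (t : Set ℕ) := by
    intro i hi
    have := (hem i).2 (e i) hi
    omega
  have hjoin : ∀ a : Z, join t e (cod a) ∈ Nb t Y := by
    intro a
    refine ⟨?_, fun n hn => Or.inl hn, fun n hn => ?_⟩
    · refine Set.Infinite.mono subset_union_right ?_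
      exact (cod_infinite a).image hes.injective.injOn
    · rcases hn with hn | ⟨i, -, rfl⟩
      · exact Or.inl hn
      · exact Or.inr (hem i)
  -- the closed set
  set K : Set (Z × (ℕ → ℕ)) := {q | ∀ j, (j ∈ psi φ q.2 ↔ j ∈ join t e (cod q.1))} with hK
  have hKc : IsClosed K := by
    rw [hK, Set.ofPred_forall]
    refine isClosed_iInter fun j => ?_
    have c1 : IsClopen {q : Z × (ℕ → ℕ) | j ∈ psi φ q.2} :=
      (isClopen_psi hφ j).preimage continuous_snd
    have c2 : IsClopen {q : Z × (ℕ → ℕ) | j ∈ join t e (cod q.1)} :=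
      (isClopen_join hes j).preimage continuous_fst
    have h1 : {q : Z × (ℕ → ℕ) | (j ∈ psi φ q.2 ↔ j ∈ join t e (cod q.1))} =
        ({q : Z × (ℕ → ℕ) | j ∈ psi φ q.2} ∩ {q | j ∈ join t e (cod q.1)}) ∪
        ({q : Z × (ℕ → ℕ) | j ∈ psi φ q.2}ᶜ ∩ {q | j ∈ join t e (cod q.1)}ᶜ) := by
      ext q
      simp only [Set.mem_ofPred_eq, mem_union, mem_inter_iff, mem_compl_iff]
      exact iff_iff_and_or_not_and_not
    rw [h1]
    exact (c1.isClosed.inter c2.isClosed).union (c1.compl.isClosed.inter c2.compl.isClosed)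
  have htot : ∀ a, ∃ f, (a, f) ∈ K := by
    intro a
    obtain ⟨D, hD, hDm⟩ := hall _ (hjoin a)
    rw [← hφS] at hD
    obtain ⟨f, rfl⟩ := hD
    refine ⟨f, fun j => ?_⟩
    show j ∈ mins (φ f).1 ↔ _
    rw [hDm]
  obtain ⟨D, hD, s, hs, hsK⟩ := selection hKc htot
  have hmem : ∀ f, φ f ∈ S := fun f => by rw [← hφS]; exact ⟨f, rfl⟩
  let φ' : (ℕ → ℕ) → S := fun f => ⟨φ f, hmem f⟩
  have hφ' : Continuous φ' := hφ.subtype_mk hmem
  refine no_generic D hD (fun n a => H n (φ' (s a))) (fun n => ?_) fun a ha b hb => ?_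
  · have h1 : @Measurable S (ℕ → Bool) (borel S) (borel (ℕ → Bool)) (H n) :=
      (isBorelMap_iff _).1 (hH n)
    have h2 : @Measurable (ℕ → ℕ) S (borel (ℕ → ℕ)) (borel S) φ' := hφ'.borel_measurable
    have e1 : (inferInstance : MeasurableSpace (ℕ → ℕ)) = borel (ℕ → ℕ) := BorelSpace.measurable_eq
    have e2 : (inferInstance : MeasurableSpace (ℕ → Bool)) = borel (ℕ → Bool) :=
      BorelSpace.measurable_eq
    have h3 : @Measurable Z (ℕ → ℕ) (borel Z) (borel (ℕ → ℕ)) s := by
      rw [← e1]
      exact hs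
    have h4 := (h1.comp h2).comp h3
    rw [← e2] at h4
    exact h4
  · have h1 : ∀ c ∈ D, mins (φ (s c)).1 = join t e (cod c) := by
      intro c hc
      ext j
      exact hsK c hc j
    have h2 := h (φ' (s a)) (φ' (s b))
    show _ ↔ ∃ n, H n (φ' (s a)) = H n (φ' (s b))
    rw [← h2]
    show _ ↔ Close (mins (φ (s a)).1) (mins (φ (s b)).1)
    rw [h1 a ha, h1 b hb, close_join hes hed, close_cod]

theorem not_reducible {S : Set EInf} (hS : IsBorel S) (hN : ¬ Null S) {Y : Type u}
    [TopologicalSpace Y] {F : Y → Y → Prop} (hF : Hypersmooth F) :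
    ¬ BorelReducible (Restrict EE S) F := by
  rintro ⟨g, hg, hgE⟩
  obtain ⟨F', -, hF2, -, hF4⟩ := hF
  choose k hk1 hk2 using hF2
  refine not_sigma_smooth hS hN (fun n x => k n (g x)) (fun n => ?_) fun x y => ?_
  · intro U hU
    exact hg _ (hk1 n U hU)
  · have h1 := hgE x y
    have h2 : Restrict EE S x y ↔ EE x.1 y.1 := Iff.rfl
    rw [← h2, h1, hF4]
    exact exists_congr fun n => hk2 n _ _

end Pool.Agent.K3h26.CS
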