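import Pool.Agent.K3h26.CS.Defs

/-!
# `𝓔_∞` is a Polish space
-/

set_option autoImplicit false

open Set Topology Filter

namespace Pool.Agent.K3h26.CS

theorem mins_spec {A : Setoid ℕ} (x : ℕ) : ∃ m ∈ mins A, A.r m x ∧ m ≤ x := by
  classical
  have h : ∃ m, A.r m x := ⟨x, A.refl x⟩
  refine ⟨Nat.find h, fun k hk => ?_, Nat.find_spec h, Nat.find_min' h (A.refl x)⟩
  exact Nat.find_min' h (A.trans hk (Nat.find_spec h))

theorem mins_unique {A : Setoid ℕ} {m m' : ℕ} (h : m ∈ mins A) (h' : m' ∈ mins A) (hr : A.r m m') :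
    m = m' :=
  le_antisymm (h m' (A.symm hr)) (h' m hr)

theorem classes_iff (A : Setoid ℕ) : A.classes.Infinite ↔ (mins A).Infinite := by
  have h1 : A.classes = (fun m => {x | A.r x m}) '' mins A := by
    ext S
    constructor
    · rintro ⟨y, rfl⟩
      obtain ⟨m, hm, hmy, -⟩ := mins_spec (A := A) y
      refine ⟨m, hm, ?_⟩
      ext x
      constructor
      · intro hx
        exact A.trans hx hmy
      · intro hx
        exact A.trans hx (A.symm hmy)
    · rintro ⟨m, -, rfl⟩
      exact ⟨m, rfl⟩
  rw [h1]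
  refine Set.infinite_image_iff ?_
  intro m hm m' hm' h
  apply mins_unique hm hm'
  have : m ∈ {x | A.r x m} := A.refl m
  simp only at h
  rw [h] at this
  exact this

theorem mins_infinite (A : EInf) : (mins A.1).Infinite := (classes_iff A.1).1 A.2

theorem mu_strictMono (A : EInf) : StrictMono fun n => mu n A :=
  Nat.nth_strictMono (mins_infinite A)

theorem mu_mem (n : ℕ) (A : EInf) : mu n A ∈ mins A.1 :=
  Nat.nth_mem_of_infinite (mins_infinite A) n

theorem exists_mu {A : EInf} {m : ℕ} (h : m ∈ mins A.1) : ∃ n ≤ m, mu n A = m := by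
  classical
  have h1 : Set.range (fun n => mu n A) = mins A.1 := Nat.range_nth_of_infinite (mins_infinite A)
  rw [← h1] at h
  obtain ⟨n, hn⟩ := h
  refine ⟨n, ?_, hn⟩
  rw [← hn]
  exact (mu_strictMono A).id_le n

theorem mu_eq_of {A : EInf} {u : ℕ → ℕ} (hu : StrictMono u) (hr : Set.range u = mins A.1) :
    (fun n => mu n A) = u := by
  have h1 : Set.range (fun n => mu n A) = mins A.1 := Nat.range_nth_of_infinite (mins_infinite A)
  exact ((mu_strictMono A).range_inj hu).1 (h1.trans hr.symm)

theorem code_eq_true {A : EInf} {n m : ℕ} : code A (n, m) = true ↔ A.1.r m (mu n A) := by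
  classical
  simp [code]

theorem code_eq_false {A : EInf} {n m : ℕ} : code A (n, m) = false ↔ ¬ A.1.r m (mu n A) := by
  classical
  simp [code]

theorem continuous_code : Continuous code := continuous_induced_dom

theorem isOpen_code (n m : ℕ) (b : Bool) : IsOpen {A : EInf | code A (n, m) = b} :=
  (isOpen_discrete {b}).preimage ((continuous_apply (n, m)).comp continuous_code)

theorem mu_eq_iff {A : EInf} {n m : ℕ} :
    mu n A = m ↔ code A (n, m) = true ∧ ∀ k < m, code A (n, k) = false := by
  constructor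
  · rintro rfl
    refine ⟨code_eq_true.2 (A.1.refl _), fun k hk => code_eq_false.2 fun h => ?_⟩
    have := mu_mem n A k h
    omega
  · rintro ⟨h1, h2⟩
    have h3 := mu_mem n A m (code_eq_true.1 h1)
    by_contra hne
    exact code_eq_false.1 (h2 (mu n A) (by omega)) (A.1.refl _)

theorem continuous_mu (n : ℕ) : Continuous fun A : EInf => mu n A := by
  rw [continuous_discrete_rng]
  intro m
  have h1 : (fun A : EInf => mu n A) ⁻¹' {m} = {A | code A (n, m) = true} ∩
      ⋂ k ∈ Finset.range m, {A | code A (n, k) = false} := by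
    ext A
    simp only [mem_preimage, mem_singleton_iff, mem_inter_iff, Set.mem_ofPred_eq, mem_iInter,
      Finset.mem_range]
    exact mu_eq_iff
  rw [h1]
  exact (isOpen_code n m true).inter (isOpen_biInter_finset fun k _ => isOpen_code n k false)

open Classical in
/-- the characteristic function of the relation -/
noncomputable def rel (A : EInf) : ℕ → ℕ → Bool := fun x y => decide (A.1.r x y)

theorem rel_eq_true {A : EInf} {x y : ℕ} : rel A x y = true ↔ A.1.r x y := by
  classical
  simp [rel]

theorem rel_iff {A : EInf} {x y : ℕ} :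
    A.1.r x y ↔ ∃ n ∈ Finset.range (x + 1), code A (n, x) = true ∧ code A (n, y) = true := by
  constructor
  · intro h
    obtain ⟨m, hm, hmx, hle⟩ := mins_spec (A := A.1) x
    obtain ⟨n, hn, rfl⟩ := exists_mu hm
    exact ⟨n, Finset.mem_range.2 (by omega), code_eq_true.2 (A.1.symm hmx),
      code_eq_true.2 (A.1.symm (A.1.trans hmx h))⟩
  · rintro ⟨n, -, h1, h2⟩
    exact A.1.trans (code_eq_true.1 h1) (A.1.symm (code_eq_true.1 h2))

theorem isClopen_rel (x y : ℕ) : IsClopen {A : EInf | A.1.r x y} := by
  have hcl : ∀ n m : ℕ, IsClopen {A : EInf | code A (n, m) = true} := by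
    intro n m
    refine ⟨⟨?_⟩, isOpen_code n m true⟩
    have : {A : EInf | code A (n, m) = true}ᶜ = {A | code A (n, m) = false} := by
      ext A
      simp
    rw [this]
    exact isOpen_code n m false
  have h1 : {A : EInf | A.1.r x y} = ⋃ n ∈ Finset.range (x + 1),
      ({A : EInf | code A (n, x) = true} ∩ {A : EInf | code A (n, y) = true}) := by
    ext A
    simp only [Set.mem_ofPred_eq, mem_iUnion, mem_inter_iff, exists_prop]
    exact rel_iff
  rw [h1]
  exact isClopen_biUnion_finset fun n _ => (hcl n x).inter (hcl n y)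

theorem continuous_rel : Continuous rel := by
  refine continuous_pi fun x => continuous_pi fun y => ?_
  rw [continuous_discrete_rng]
  intro b
  cases b with
  | true =>
    have : (fun A : EInf => rel A x y) ⁻¹' {true} = {A | A.1.r x y} := by
      ext A
      simp only [mem_preimage, mem_singleton_iff, Set.mem_ofPred_eq]
      exact rel_eq_true
    rw [this]
    exact (isClopen_rel x y).isOpen
  | false =>
    have : (fun A : EInf => rel A x y) ⁻¹' {false} = {A | A.1.r x y}ᶜ := by
      ext A
      simp only [mem_preimage, mem_singleton_iff, Set.mem_ofPred_eq, mem_compl_iff]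
      rw [← rel_eq_true]
      simp
    rw [this]
    exact (isClopen_rel x y).compl.isOpen

/-- the pair of the relation and the enumeration of the least elements -/
noncomputable def emb (A : EInf) : (ℕ → ℕ → Bool) × (ℕ → ℕ) := (rel A, fun n => mu n A)

theorem continuous_emb : Continuous emb := continuous_rel.prodMk (continuous_pi continuous_mu)

theorem emb_inj : Function.Injective emb := by
  intro A B h
  have h1 : rel A = rel B := congrArg Prod.fst h
  apply Subtype.ext
  apply Setoid.ext
  intro x y
  have := congrFun (congrFun h1 x) y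
  have h2 : A.1.r x y ↔ B.1.r x y := by
    rw [← rel_eq_true, ← rel_eq_true, this]
  exact h2

/-- recover the code -/
def dec (p : (ℕ → ℕ → Bool) × (ℕ → ℕ)) : ℕ × ℕ → Bool := fun q => p.1 q.2 (p.2 q.1)

theorem continuous_dec : Continuous dec := by
  refine continuous_pi fun q => ?_
  rw [continuous_discrete_rng]
  intro b
  have h1 : (fun p : (ℕ → ℕ → Bool) × (ℕ → ℕ) => dec p q) ⁻¹' {b} =
      ⋃ k : ℕ, {p : (ℕ → ℕ → Bool) × (ℕ → ℕ) | p.2 q.1 = k} ∩ {p | p.1 q.2 k = b} := by
    ext p
    simp only [mem_preimage, mem_singleton_iff, mem_iUnion, mem_inter_iff, Set.mem_ofPred_eq, dec]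
    constructor
    · intro h
      exact ⟨_, rfl, h⟩
    · rintro ⟨k, rfl, h⟩
      exact h
  rw [h1]
  refine isOpen_iUnion fun k => IsOpen.inter ?_ ?_
  · have hc : Continuous fun p : (ℕ → ℕ → Bool) × (ℕ → ℕ) => p.2 q.1 :=
      (continuous_apply q.1).comp continuous_snd
    exact (isOpen_discrete {k}).preimage hc
  · have hc : Continuous fun p : (ℕ → ℕ → Bool) × (ℕ → ℕ) => p.1 q.2 k :=
      (continuous_apply k).comp ((continuous_apply q.2).comp continuous_fst)
    exact (isOpen_discrete {b}).preimage hc

theorem dec_emb (A : EInf) : dec (emb A) = code A := by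
  classical
  funext q
  rfl

theorem emb_isInducing : IsInducing emb := by
  refine IsInducing.of_comp continuous_emb continuous_dec ?_
  have : dec ∘ emb = code := funext dec_emb
  rw [this]
  exact ⟨rfl⟩

theorem range_emb : Set.range emb = {p : (ℕ → ℕ → Bool) × (ℕ → ℕ) |
    (∀ a, p.1 a a = true) ∧ (∀ a b, p.1 a b = true → p.1 b a = true) ∧
    (∀ a b c, p.1 a b = true → p.1 b c = true → p.1 a c = true) ∧
    (∀ n, p.2 n < p.2 (n + 1)) ∧ (∀ n m k, k < m → p.2 n = m → p.1 k m = false) ∧
    (∀ m, (∃ k ∈ Finset.range m, p.1 k m = true) ∨ ∃ n ∈ Finset.range (m + 1), p.2 n = m)} := by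
  classical
  ext p
  simp only [mem_range, Set.mem_ofPred_eq]
  constructor
  · rintro ⟨A, rfl⟩
    refine ⟨fun a => rel_eq_true.2 (A.1.refl a), fun a b h => rel_eq_true.2 (A.1.symm (rel_eq_true.1 h)),
      fun a b c h h' => rel_eq_true.2 (A.1.trans (rel_eq_true.1 h) (rel_eq_true.1 h')),
      fun n => mu_strictMono A (Nat.lt_succ_self n), fun n m k hk hn => ?_, fun m => ?_⟩
    · rw [← Bool.not_eq_true]
      intro h
      have h1 := mu_mem n A
      have h2 : mu n A = m := hn
      rw [h2] at h1
      have := h1 k (rel_eq_true.1 h)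
      omega
    · by_cases hm : m ∈ mins A.1
      · obtain ⟨n, hn, hnm⟩ := exists_mu hm
        exact Or.inr ⟨n, Finset.mem_range.2 (by omega), hnm⟩
      · left
        simp only [mins, Set.mem_ofPred_eq, not_forall, not_le] at hm
        obtain ⟨k, hk1, hk2⟩ := hm
        exact ⟨k, Finset.mem_range.2 hk2, rel_eq_true.2 hk1⟩
  · rintro ⟨h1, h2, h3, h4, h5, h6⟩
    let S : Setoid ℕ := ⟨fun a b => p.1 a b = true, ⟨h1, fun {a b} => h2 a b, fun {a b c} => h3 a b c⟩⟩
    have hu : StrictMono p.2 := strictMono_nat_of_lt_succ h4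
    have hr : Set.range p.2 = mins S := by
      ext m
      constructor
      · rintro ⟨n, rfl⟩ k hk
        by_contra hc
        have := h5 n _ k (not_le.1 hc) rfl
        have hk' : p.1 k (p.2 n) = true := hk
        rw [this] at hk'
        exact Bool.noConfusion hk'
      · intro hm
        rcases h6 m with ⟨k, hk, hkm⟩ | ⟨n, -, hn⟩
        · have := hm k hkm
          have := Finset.mem_range.1 hk
          omega
        · exact ⟨n, hn⟩
    have hinf : S.classes.Infinite := by
      rw [classes_iff, ← hr]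
      exact Set.infinite_range_of_injective hu.injective
    refine ⟨⟨S, hinf⟩, ?_⟩
    have e1 : rel ⟨S, hinf⟩ = p.1 := by
      funext x y
      have h7 : rel ⟨S, hinf⟩ x y = true ↔ p.1 x y = true := rel_eq_true
      rw [Bool.eq_iff_iff]
      exact h7
    have e2 : (fun n => mu n ⟨S, hinf⟩) = p.2 := mu_eq_of hu hr
    exact Prod.ext e1 e2

theorem isClosed_range_emb : IsClosed (Set.range emb) := by
  rw [range_emb]
  have c1 : ∀ a b, Continuous fun p : (ℕ → ℕ → Bool) × (ℕ → ℕ) => p.1 a b := fun a b =>
    (continuous_apply b).comp ((continuous_apply a).comp continuous_fst)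
  have c2 : ∀ n, Continuous fun p : (ℕ → ℕ → Bool) × (ℕ → ℕ) => p.2 n := fun n =>
    (continuous_apply n).comp continuous_snd
  have k1 : ∀ a b, IsClopen {p : (ℕ → ℕ → Bool) × (ℕ → ℕ) | p.1 a b = true} := fun a b =>
    (isClopen_discrete {true}).preimage (c1 a b)
  have k0 : ∀ a b, IsClopen {p : (ℕ → ℕ → Bool) × (ℕ → ℕ) | p.1 a b = false} := fun a b =>
    (isClopen_discrete {false}).preimage (c1 a b)
  have k2 : ∀ n m, IsClopen {p : (ℕ → ℕ → Bool) × (ℕ → ℕ) | p.2 n = m} := fun n m =>
    (isClopen_discrete {m}).preimage (c2 n)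
  have imp : ∀ {P Q : ((ℕ → ℕ → Bool) × (ℕ → ℕ)) → Prop}, IsClopen {p | P p} → IsClosed {p | Q p} →
      IsClosed {p | P p → Q p} := by
    intro P Q hP hQ
    have : {p | P p → Q p} = {p | P p}ᶜ ∪ {p | Q p} := by
      ext p
      simp only [Set.mem_ofPred_eq, mem_union, mem_compl_iff]
      tauto
    rw [this]
    exact hP.compl.isClosed.union hQ
  simp only [Set.ofPred_and, Set.ofPred_forall]
  refine IsClosed.inter (isClosed_iInter fun a => (k1 a a).isClosed) (IsClosed.inter
    (isClosed_iInter fun a => isClosed_iInter fun b => imp (k1 a b) (k1 b a).isClosed) (IsClosed.inter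
    (isClosed_iInter fun a => isClosed_iInter fun b => isClosed_iInter fun c =>
      imp (k1 a b) (imp (k1 b c) (k1 a c).isClosed)) (IsClosed.inter (isClosed_iInter fun n => ?_)
    (IsClosed.inter (isClosed_iInter fun n => isClosed_iInter fun m => isClosed_iInter fun k =>
      isClosed_iInter fun _ => imp (k2 n m) (k0 k m).isClosed) (isClosed_iInter fun m => ?_)))))
  · exact (isClosed_discrete {q : ℕ × ℕ | q.1 < q.2}).preimage ((c2 n).prodMk (c2 (n + 1)))
  · have : {p : (ℕ → ℕ → Bool) × (ℕ → ℕ) | (∃ k ∈ Finset.range m, p.1 k m = true) ∨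
        ∃ n ∈ Finset.range (m + 1), p.2 n = m} =
        (⋃ k ∈ Finset.range m, {p | p.1 k m = true}) ∪ ⋃ n ∈ Finset.range (m + 1), {p | p.2 n = m} := by
      ext p
      simp only [Set.mem_ofPred_eq, mem_union, mem_iUnion, exists_prop]
    rw [this]
    exact ((isClopen_biUnion_finset fun k _ => k1 k m).union
      (isClopen_biUnion_finset fun n _ => k2 n m)).isClosed

theorem emb_isClosedEmbedding : IsClosedEmbedding emb :=
  ⟨⟨emb_isInducing, emb_inj⟩, isClosed_range_emb⟩

theorem polish_aux : PolishSpace ((ℕ → ℕ → Bool) × (ℕ → ℕ)) := by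
  have h1 : TopologicalSpace.IsCompletelyMetrizableSpace (ℕ → ℕ → Bool) := inferInstance
  have h2 : PolishSpace (ℕ → ℕ → Bool) := inferInstance
  infer_instance

instance : PolishSpace EInf :=
  have := polish_aux
  emb_isClosedEmbedding.polishSpace

end Pool.Agent.K3h26.CS
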