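import Mathlib
import Pool.Agent.H566W.Ana
import Pool.Agent.H38R3.Ellentuck

/-!
# Generic uniformization

A closed set in the product of a Polish space and the Baire space with full projection contains the
graph of a Borel function above a comeagre set.
-/

set_option autoImplicit false

open Set Filter Topology MeasureTheory

namespace Pool.Agent.K3h26.CS

open Pool.Agent Pool.Agent.H38R3.Ell

/-- Analytic sets have the property of Baire. -/
theorem analytic_baire {X : Type*} [TopologicalSpace X] [SecondCountableTopology X] [T2Space X]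
    {A : Set X} (hA : AnalyticSet A) :
    ∃ u : Set X, IsOpen u ∧ ∀ᶠ x in residual X, (x ∈ A ↔ x ∈ u) := by
  rw [AnalyticSet] at hA
  rcases hA with rfl | ⟨f, hf, hfr⟩
  · exact ⟨∅, isOpen_empty, Eventually.of_forall fun _ => Iff.rfl⟩
  have h1 : IsMeagre (A \ H566W.Dn A) := H566W.sdiff_Dn A
  have h2 : IsMeagre (H566W.Dn A \ A) := by
    rw [← hfr]
    exact H566W.analytic_bp hf
  have h3 : BaireMeasurableSet (H566W.Dn A) :=
    ((H566W.Dn_closed A).isOpen_compl.baireMeasurableSet).of_compl
  have h4 : A =ᶠ[residual X] H566W.Dn A := by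
    rw [Filter.eventuallyEq_set]
    have h1' : (A \ H566W.Dn A)ᶜ ∈ residual X := h1
    have h2' : (H566W.Dn A \ A)ᶜ ∈ residual X := h2
    filter_upwards [h1', h2'] with x hx1 hx2
    constructor
    · intro hx
      by_contra hc
      exact hx1 ⟨hx, hc⟩
    · intro hx
      by_contra hc
      exact hx2 ⟨hx, hc⟩
  obtain ⟨u, hu, hAu⟩ := (h3.congr h4.symm).residualEq_isOpen
  exact ⟨u, hu, Filter.eventuallyEq_set.1 hAu⟩

theorem pre_eq_iff {f g : ℕ → ℕ} {k : ℕ} : pre f k = pre g k ↔ ∀ i < k, f i = g i := by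
  unfold pre
  rw [List.map_inj_left]
  simp

theorem isClosed_pre (p : List ℕ) : IsClosed {f : ℕ → ℕ | pre f p.length = p} := by
  have : {f : ℕ → ℕ | pre f p.length = p} = ⋂ i : Fin p.length, {f | f i = p.get i} := by
    ext f
    simp only [Set.mem_ofPred_eq, mem_iInter]
    constructor
    · intro h i
      have h1 : (pre f p.length)[(i : ℕ)]'(by rw [length_pre]; exact i.2) = p[(i : ℕ)] := by
        simp only [h]
      rw [← show (pre f p.length)[(i : ℕ)]'(by rw [length_pre]; exact i.2) = f i by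
        simp [pre]]
      exact h1
    · intro h
      apply List.ext_getElem
      · rw [length_pre]
      · intro i h1 h2
        have := h ⟨i, h2⟩
        simp only [pre, List.getElem_map, List.getElem_range]
        exact this
  rw [this]
  refine isClosed_iInter fun i => ?_
  exact isClosed_eq (continuous_apply _) continuous_const

section

variable {Y : Type} [TopologicalSpace Y]

/-- the projections -/
def AA (K : Set (Y × (ℕ → ℕ))) (p : List ℕ) : Set Y := {a | ∃ f, pre f p.length = p ∧ (a, f) ∈ K}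

theorem analytic_AA [PolishSpace Y] {K : Set (Y × (ℕ → ℕ))} (hK : IsClosed K) (p : List ℕ) :
    AnalyticSet (AA K p) := by
  have h1 : AA K p = Prod.fst '' (K ∩ {q | pre q.2 p.length = p}) := by
    ext a
    constructor
    · rintro ⟨f, h1, h2⟩
      exact ⟨(a, f), ⟨h2, h1⟩, rfl⟩
    · rintro ⟨⟨a, f⟩, ⟨h1, h2⟩, rfl⟩
      exact ⟨f, h2, h1⟩
  rw [h1]
  have h2 : IsClosed (K ∩ {q : Y × (ℕ → ℕ) | pre q.2 p.length = p}) :=
    hK.inter ((isClosed_pre p).preimage continuous_snd)
  exact h2.analyticSet.image_of_continuous continuous_fst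

/-- the next value -/
noncomputable def nxt (O : List ℕ → Set Y) (p : List ℕ) (a : Y) : ℕ :=
  sInf {j | a ∈ O (p ++ [j]) ∨ ∀ j', a ∉ O (p ++ [j'])}

theorem nxt_spec {O : List ℕ → Set Y} {p : List ℕ} {a : Y} (h : ∃ j, a ∈ O (p ++ [j])) :
    a ∈ O (p ++ [nxt O p a]) := by
  have h1 : nxt O p a ∈ {j | a ∈ O (p ++ [j]) ∨ ∀ j', a ∉ O (p ++ [j'])} := by
    apply Nat.sInf_mem
    obtain ⟨j, hj⟩ := h
    exact ⟨j, Or.inl hj⟩
  rcases h1 with h1 | h1
  · exact h1
  · obtain ⟨j, hj⟩ := h
    exact (h1 j hj).elim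

/-- the initial parts of the selected sequence -/
noncomputable def tt (O : List ℕ → Set Y) (a : Y) : ℕ → List ℕ
  | 0 => []
  | (k + 1) => tt O a k ++ [nxt O (tt O a k) a]

/-- the selected sequence -/
noncomputable def ss (O : List ℕ → Set Y) (a : Y) (k : ℕ) : ℕ := nxt O (tt O a k) a

theorem tt_eq (O : List ℕ → Set Y) (a : Y) (k : ℕ) : tt O a k = pre (ss O a) k := by
  induction k with
  | zero => rfl
  | succ k ih =>
    rw [pre_succ, ← ih]
    rfl

theorem measurable_nxt [MeasurableSpace Y] [BorelSpace Y] {O : List ℕ → Set Y}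
    (hO : ∀ p, IsOpen (O p)) (p : List ℕ) : Measurable (nxt O p) := by
  classical
  have htot : ∀ a : Y, ∃ j, a ∈ O (p ++ [j]) ∨ ∀ j', a ∉ O (p ++ [j']) := by
    intro a
    by_cases h : ∃ j, a ∈ O (p ++ [j])
    · obtain ⟨j, hj⟩ := h
      exact ⟨j, Or.inl hj⟩
    · push Not at h
      exact ⟨0, Or.inr h⟩
  have h1 : nxt O p = fun a => Nat.find (htot a) := by
    funext a
    exact le_antisymm (Nat.sInf_le (Nat.find_spec (htot a)))
      (Nat.find_min' (htot a) (Nat.sInf_mem (htot a)))
  rw [h1]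
  refine measurable_find htot fun k => ?_
  have h2 : {x : Y | x ∈ O (p ++ [k]) ∨ ∀ j', x ∉ O (p ++ [j'])} =
      O (p ++ [k]) ∪ ⋂ j', (O (p ++ [j']))ᶜ := by
    ext x
    simp
  rw [h2]
  exact (hO _).measurableSet.union (MeasurableSet.iInter fun j => (hO _).measurableSet.compl)

theorem measurableSet_tt [MeasurableSpace Y] [BorelSpace Y] {O : List ℕ → Set Y}
    (hO : ∀ p, IsOpen (O p)) (k : ℕ) : ∀ p, MeasurableSet {a | tt O a k = p} := by
  induction k with
  | zero =>
    intro p
    show MeasurableSet {_a : Y | ([] : List ℕ) = p}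
    exact MeasurableSet.const _
  | succ k ih =>
    intro p
    have h1 : {a | tt O a (k + 1) = p} =
        ⋃ q : List ℕ, {a | tt O a k = q} ∩ ⋃ j : ℕ, {a : Y | nxt O q a = j ∧ q ++ [j] = p} := by
      ext a
      simp only [Set.mem_ofPred_eq, mem_iUnion, mem_inter_iff]
      constructor
      · intro h
        exact ⟨_, rfl, _, rfl, h⟩
      · rintro ⟨q, hq, j, hj, hp⟩
        show tt O a k ++ [nxt O (tt O a k) a] = p
        rw [hq, hj, hp]
    rw [h1]
    refine MeasurableSet.iUnion fun q => (ih q).inter (MeasurableSet.iUnion fun j => ?_)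
    by_cases h : q ++ [j] = p
    · have : {a : Y | nxt O q a = j ∧ q ++ [j] = p} = nxt O q ⁻¹' {j} := by
        ext a
        simp [h]
      rw [this]
      exact measurable_nxt hO q (measurableSet_singleton j)
    · have : {a : Y | nxt O q a = j ∧ q ++ [j] = p} = ∅ := by
        ext a
        simp [h]
      rw [this]
      exact MeasurableSet.empty

theorem measurable_ss [MeasurableSpace Y] [BorelSpace Y] {O : List ℕ → Set Y}
    (hO : ∀ p, IsOpen (O p)) : Measurable (ss O) := by
  rw [measurable_pi_iff]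
  intro k
  refine measurable_to_countable' fun j => ?_
  have h1 : (fun a => ss O a k) ⁻¹' {j} = ⋃ q : List ℕ, {a | tt O a k = q} ∩ nxt O q ⁻¹' {j} := by
    ext a
    simp only [mem_preimage, mem_singleton_iff, mem_iUnion, mem_inter_iff, Set.mem_ofPred_eq]
    constructor
    · intro h
      exact ⟨_, rfl, h⟩
    · rintro ⟨q, rfl, h⟩
      exact h
  rw [h1]
  exact MeasurableSet.iUnion fun q => (measurableSet_tt hO k q).inter
    (measurable_nxt hO q (measurableSet_singleton j))

theorem selection [PolishSpace Y] {K : Set (Y × (ℕ → ℕ))} (hK : IsClosed K)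
    (htot : ∀ a, ∃ f, (a, f) ∈ K) :
    ∃ D ∈ residual Y, ∃ s : Y → (ℕ → ℕ), @Measurable Y (ℕ → ℕ) (borel Y) _ s ∧
      ∀ a ∈ D, (a, s a) ∈ K := by
  borelize Y
  have h1 : ∀ p : List ℕ, ∃ u : Set Y, IsOpen u ∧ ∀ᶠ x in residual Y, (x ∈ AA K p ↔ x ∈ u) :=
    fun p => analytic_baire (analytic_AA hK p)
  choose O hO1 hO2 using h1
  refine ⟨{a | ∀ p, a ∈ AA K p ↔ a ∈ O p}, eventually_countable_forall.2 hO2, ss O,
    measurable_ss hO1, fun a ha => ?_⟩
  have h2 : ∀ k, a ∈ AA K (tt O a k) := by
    intro k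
    induction k with
    | zero =>
      obtain ⟨f, hf⟩ := htot a
      exact ⟨f, rfl, hf⟩
    | succ k ih =>
      obtain ⟨f, hf1, hf2⟩ := ih
      have h3 : ∃ j, a ∈ O (tt O a k ++ [j]) := by
        refine ⟨f (tt O a k).length, (ha _).1 ⟨f, ?_, hf2⟩⟩
        rw [List.length_append, List.length_singleton, pre_succ, hf1]
      exact (ha _).2 (nxt_spec h3)
  choose g hg1 hg2 using h2
  have hlim : Tendsto g atTop (𝓝 (ss O a)) := by
    rw [tendsto_pi_nhds]
    intro i
    refine tendsto_const_nhds.congr' ?_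
    filter_upwards [eventually_gt_atTop i] with k hk
    have h4 := hg1 k
    rw [tt_eq, length_pre, pre_eq_iff] at h4
    exact (h4 i hk).symm
  exact hK.mem_of_tendsto (tendsto_const_nhds.prodMk_nhds hlim) (Eventually.of_forall hg2)

end

end Pool.Agent.K3h26.CS
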