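import Pool.Agent.K3h26.CS.Pol
import Pool.Agent.K3h26.CS.Sel

/-!
# Positive Borel sets and the Ramsey property of analytic sets
-/

set_option autoImplicit false

open Set Topology Filter MeasureTheory

namespace Pool.Agent.K3h26.CS

open Pool.Agent.H38R3.Ell

/-! ### Merging classes -/

/-- the least element of the class of `x` -/
noncomputable def minOf (A : Setoid ℕ) (x : ℕ) : ℕ := sInf {m | A.r m x}

theorem minOf_rel (A : Setoid ℕ) (x : ℕ) : A.r (minOf A x) x :=
  Nat.sInf_mem (s := {m | A.r m x}) ⟨x, A.refl x⟩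

theorem minOf_le (A : Setoid ℕ) {x k : ℕ} (h : A.r k x) : minOf A x ≤ k :=
  Nat.sInf_le (s := {m | A.r m x}) h

theorem minOf_mem (A : Setoid ℕ) (x : ℕ) : minOf A x ∈ mins A := fun _ hk =>
  minOf_le A (A.trans hk (minOf_rel A x))

theorem minOf_eq {A : Setoid ℕ} {m : ℕ} (h : m ∈ mins A) : minOf A m = m :=
  mins_unique (minOf_mem A m) h (minOf_rel A m)

theorem minOf_congr {A : Setoid ℕ} {x y : ℕ} : minOf A x = minOf A y ↔ A.r x y := by
  constructor
  · intro h
    have h1 := minOf_rel A x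
    rw [h] at h1
    exact A.trans (A.symm h1) (minOf_rel A y)
  · intro h
    exact mins_unique (minOf_mem A x) (minOf_mem A y)
      (A.trans (minOf_rel A x) (A.trans h (A.symm (minOf_rel A y))))

theorem zero_mem_mins (A : Setoid ℕ) : 0 ∈ mins A := fun _ _ => Nat.zero_le _

open Classical in
/-- the new representative -/
noncomputable def rep (A : Setoid ℕ) (z : Set ℕ) (x : ℕ) : ℕ := if minOf A x ∈ z then minOf A x else 0

/-- All classes with least element outside of `z` are merged with the class of `0`. -/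
noncomputable def merge (A : Setoid ℕ) (z : Set ℕ) : Setoid ℕ where
  r x y := rep A z x = rep A z y
  iseqv := ⟨fun _ => rfl, fun h => h.symm, fun h h' => h.trans h'⟩

theorem rep_of_mem {A : Setoid ℕ} {z : Set ℕ} {x : ℕ} (h : minOf A x ∈ z) : rep A z x = minOf A x := by
  unfold rep
  rw [if_pos h]

theorem rep_le {A : Setoid ℕ} {z : Set ℕ} (x : ℕ) : rep A z x ≤ x := by
  unfold rep
  split_ifs
  · exact minOf_le A (A.refl x)
  · exact Nat.zero_le _

theorem rep_mem {A : Setoid ℕ} {z : Set ℕ} (h0 : 0 ∈ z) (x : ℕ) : rep A z x ∈ z := by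
  unfold rep
  split_ifs with h
  · exact h
  · exact h0

theorem rep_self {A : Setoid ℕ} {z : Set ℕ} (hz : z ⊆ mins A) {m : ℕ} (h : m ∈ z) : rep A z m = m := by
  have h1 := minOf_eq (hz h)
  rw [rep_of_mem (by rw [h1]; exact h), h1]

theorem mins_merge {A : Setoid ℕ} {z : Set ℕ} (hz : z ⊆ mins A) (h0 : 0 ∈ z) :
    mins (merge A z) = z := by
  ext m
  constructor
  · intro hm
    have h1 : (merge A z).r (rep A z m) m := rep_self hz (rep_mem h0 m)
    have h2 := hm _ h1
    have h3 := rep_le (A := A) (z := z) m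
    have h4 : rep A z m = m := le_antisymm h3 h2
    rw [← h4]
    exact rep_mem h0 m
  · intro hm k hk
    have h1 : rep A z k = rep A z m := hk
    rw [rep_self hz hm] at h1
    rw [← h1]
    exact rep_le k

/-- restriction to an initial segment -/
def restrN (A : Setoid ℕ) (N : ℕ) : FinEq := ⟨N, Setoid.comap (fun i : Fin N => (i : ℕ)) A⟩

theorem restr_eq (n : ℕ) (A : EInf) : restr n A = restrN A.1 (mu n A) := rfl

theorem restrN_iff {A A' : Setoid ℕ} {N N' : ℕ} :
    restrN A N = restrN A' N' ↔ N = N' ∧ ∀ x < N, ∀ y < N, (A.r x y ↔ A'.r x y) := by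
  constructor
  · intro h
    have h1 : N = N' := congrArg Sigma.fst h
    subst h1
    refine ⟨rfl, fun x hx y hy => ?_⟩
    have h2 : Setoid.comap (fun i : Fin N => (i : ℕ)) A = Setoid.comap (fun i : Fin N => (i : ℕ)) A' := by
      have := (Sigma.mk.inj_iff.1 h).2
      exact eq_of_heq this
    have h3 := congrArg (fun S : Setoid (Fin N) => S.r ⟨x, hx⟩ ⟨y, hy⟩) h2
    exact iff_of_eq h3
  · rintro ⟨rfl, h⟩
    have h2 : Setoid.comap (fun i : Fin N => (i : ℕ)) A = Setoid.comap (fun i : Fin N => (i : ℕ)) A' := by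
      apply Setoid.ext
      intro x y
      exact h x x.2 y y.2
    unfold restrN
    rw [h2]

/-! ### The set of the least element sets of an analytic set -/

section Sou

variable (φ : (ℕ → ℕ) → EInf)

/-- the least elements -/
def psi (f : ℕ → ℕ) : Set ℕ := mins (φ f).1

theorem isClopen_mins (j : ℕ) : IsClopen {A : EInf | j ∈ mins A.1} := by
  have h1 : {A : EInf | j ∈ mins A.1} = ⋂ k ∈ Finset.range j, {A : EInf | A.1.r k j}ᶜ := by
    ext A
    simp only [mins, Set.mem_ofPred_eq, mem_iInter, Finset.mem_range, mem_compl_iff]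
    constructor
    · intro h k hk hr
      have := h k hr
      omega
    · intro h k hr
      by_contra hc
      exact h k (by omega) hr
  rw [h1]
  exact isClopen_biInter_finset fun k _ => (isClopen_rel k j).compl

variable {φ}

theorem isClopen_psi (hφ : Continuous φ) (j : ℕ) : IsClopen {f | j ∈ psi φ f} :=
  (isClopen_mins j).preimage hφ

/-- the closed sets -/
def CC (φ : (ℕ → ℕ) → EInf) (p : List ℕ) : Set (Set ℕ) :=
  {z | ∀ k, ∃ f, pre f p.length = p ∧ ∀ j < k, (j ∈ psi φ f ↔ j ∈ z)}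

theorem CC_eo (p : List ℕ) : EO (CC φ p)ᶜ := by
  intro z hz hzi
  have h1 : ¬ ∀ k, ∃ f, pre f p.length = p ∧ ∀ j < k, (j ∈ psi φ f ↔ j ∈ z) := hz
  push Not at h1
  obtain ⟨k, hk⟩ := h1
  obtain ⟨u, hu1, hu2, hu3, -⟩ := exists_init hzi k 0
  refine ⟨u, hu1, fun w hw hc => ?_⟩
  obtain ⟨f, hf1, hf2⟩ := hc k
  have hwz : ∀ j < k, (j ∈ w ↔ j ∈ z) := by
    intro j hj
    constructor
    · intro h
      rcases hw.2.2 j h with h' | h'
      · exact hu3 j h'
      · exact h'.1
    · intro h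
      exact hw.2.1 j (hu2 j h hj)
  obtain ⟨j, hj1, hj2⟩ := hk f hf1
  have h3 := hf2 j hj1
  have h4 := hwz j hj1
  rw [h4] at h3
  rcases hj2 with ⟨h5, h6⟩ | ⟨h5, h6⟩
  · exact h6 (h3.1 h5)
  · exact h5 (h3.2 h6)

theorem sou_CC (hφ : Continuous φ) : Sou (CC φ) = {z | ∃ f, psi φ f = z} := by
  ext z
  constructor
  · rintro ⟨f, hf⟩
    refine ⟨f, ?_⟩
    ext j
    have h1 : ∀ k, ∃ g, pre g k = pre f k ∧ (j ∈ psi φ g ↔ j ∈ z) := by
      intro k
      obtain ⟨g, hg1, hg2⟩ := hf k (j + 1)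
      rw [length_pre] at hg1
      exact ⟨g, hg1, hg2 j (Nat.lt_succ_self j)⟩
    choose g hg1 hg2 using h1
    have hlim : Tendsto g atTop (𝓝 f) := by
      rw [tendsto_pi_nhds]
      intro i
      refine tendsto_const_nhds.congr' ?_
      filter_upwards [eventually_gt_atTop i] with k hk
      exact ((pre_eq_iff.1 (hg1 k)) i hk).symm
    have hcl := isClopen_psi hφ j
    constructor
    · intro h
      have h2 : ∀ᶠ k in atTop, g k ∈ {f | j ∈ psi φ f} := hlim (hcl.isOpen.mem_nhds h)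
      obtain ⟨k, hk⟩ := h2.exists
      exact (hg2 k).1 hk
    · intro h
      by_contra hc
      have h2 : ∀ᶠ k in atTop, g k ∈ {f | j ∈ psi φ f}ᶜ :=
        hlim (hcl.compl.isOpen.mem_nhds hc)
      obtain ⟨k, hk⟩ := h2.exists
      exact hk ((hg2 k).2 h)
  · rintro ⟨f, rfl⟩
    refine ⟨f, fun k l => ⟨f, ?_, fun j _ => Iff.rfl⟩⟩
    rw [length_pre]

end Sou

/-! ### The Ramsey argument -/

theorem ramsey {S : Set EInf} (hS : AnalyticSet S) (hN : ¬ Null S) :
    ∃ (t : Finset ℕ) (Y : Set ℕ), Y.Infinite ∧ ∀ z ∈ Nb t Y, ∃ D ∈ S, mins D.1 = z := by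
  classical
  rw [AnalyticSet] at hS
  rcases hS with rfl | ⟨φ, hφ, rfl⟩
  · exact (hN fun s A hA => by
      obtain ⟨B, hB⟩ := hA
      exact ⟨B, hB, by simp⟩).elim
  unfold Null at hN
  push Not at hN
  obtain ⟨s, A, ⟨A₀, hA₀, n₀, hs⟩, hall⟩ := hN
  set N := mu n₀ A₀ with hNdef
  set t : Finset ℕ := (Finset.range (N + 1)).filter (fun m => m ∈ mins A₀.1) with ht
  set X : Set ℕ := mins A₀.1 with hX
  have hXi : X.Infinite := mins_infinite A₀
  have hNt : N ∈ t := Finset.mem_filter.2 ⟨Finset.mem_range.2 (Nat.lt_succ_self _), mu_mem n₀ A₀⟩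
  have h0t : 0 ∈ t := Finset.mem_filter.2 ⟨Finset.mem_range.2 (Nat.succ_pos _), zero_mem_mins _⟩
  -- the key fact
  have key : ∀ z ∈ Nb t X, ∃ f, psi φ f ∈ Nb t z := by
    intro z hz
    have hzX : z ⊆ mins A₀.1 := by
      intro m hm
      rcases hz.2.2 m hm with h | h
      · exact (Finset.mem_filter.1 h).2
      · exact h.1
    have h0z : 0 ∈ z := hz.2.1 0 h0t
    have hmins : mins (merge A₀.1 z) = z := mins_merge hzX h0z
    have hinf : (merge A₀.1 z).classes.Infinite := by
      rw [classes_iff, hmins]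
      exact hz.1
    set B : EInf := ⟨merge A₀.1 z, hinf⟩ with hB
    have hBm : mins B.1 = z := hmins
    have hBA : Coarser B A := by
      intro x y hxy
      have h1 : A₀.1.r x y := hA₀ x y hxy
      have h2 := minOf_congr.2 h1
      show rep A₀.1 z x = rep A₀.1 z y
      unfold rep
      rw [h2]
    have hrep : ∀ x < N, rep A₀.1 z x = minOf A₀.1 x := by
      intro x hx
      apply rep_of_mem
      apply hz.2.1
      refine Finset.mem_filter.2 ⟨Finset.mem_range.2 ?_, minOf_mem _ _⟩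
      have := minOf_le A₀.1 (A₀.1.refl x)
      omega
    obtain ⟨n, -, hn⟩ := exists_mu (A := B) (m := N) (by rw [hBm]; exact hz.2.1 N hNt)
    have hsB : s = restr n B := by
      rw [hs, restr_eq, restr_eq, hn, restrN_iff]
      refine ⟨rfl, fun x hx y hy => ?_⟩
      have h1 : B.1.r x y ↔ rep A₀.1 z x = rep A₀.1 z y := Iff.rfl
      rw [h1, hrep x hx, hrep y hy, minOf_congr]
    obtain ⟨D, ⟨hDB, n', hsD⟩, ⟨f, rfl⟩⟩ := hall B ⟨hBA, n, hsB⟩
    rw [hs, restr_eq, restr_eq, restrN_iff] at hsD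
    obtain ⟨hN', hrel⟩ := hsD
    refine ⟨f, mins_infinite _, fun m hm => ?_, fun m hm => ?_⟩
    · -- elements of t
      obtain ⟨hm1, hm2⟩ := Finset.mem_filter.1 hm
      have hm1 := Finset.mem_range.1 hm1
      rcases Nat.lt_or_ge m N with h | h
      · intro k hk
        by_contra hc
        have h1 := (hrel k (by omega) m h).2 hk
        exact hc (hm2 k h1)
      · have : m = N := by omega
        rw [this]
        have h1 : N = mu n' (φ f) := hN'
        rw [h1]
        exact mu_mem n' _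
    · have hmz : m ∈ z := by
        rw [← hBm]
        intro k hk
        exact hm k (hDB k m hk)
      rcases hz.2.2 m hmz with h | h
      · exact Or.inl h
      · exact Or.inr ⟨hmz, h.2⟩
  have hCR : CR {z | ∃ f, psi φ f = z} := by
    rw [← sou_CC hφ]
    exact cr_sou _ CC_eo
  obtain ⟨Y, hYX, hYi, hY⟩ := hCR t X hXi
  rcases hY with hY | hY
  · refine ⟨t, Y, hYi, fun z hz => ?_⟩
    obtain ⟨f, hf⟩ := hY z hz
    exact ⟨φ f, ⟨f, rfl⟩, hf⟩
  · exfalso
    obtain ⟨z, hz⟩ := Nb_nonempty (t := t) hYi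
    obtain ⟨f, hf⟩ := key z (Nb_mono hYX hz)
    exact hY _ (Nb_sub_of_mem hz hf) ⟨f, rfl⟩

end Pool.Agent.K3h26.CS
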